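import Pool.Agent.Lib.MP_e46b3e_an.OwnB

set_option autoImplicit false

open MeasureTheory Filter
open scoped ENNReal

namespace Pool.Agent.Results.MP_e46b3e_an.Curse

open Pool.Agent.Lib.MP_e46b3e_an

/-- Curse of dimensionality for integration in `F_{d,q}` with arbitrary real weights, for every
`1 < p < ∞` (`q` conjugate to `p`): there is `C > 1` with `N(ε, d) ≥ C^d / 2` for all `d` and all
`0 < ε ≤ 1/32`, and `N(ε, d) ≥ C₁^d` for some `C₁ > 1`, all large `d` and all `0 < ε ≤ 1/32`.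
Also: the worst-case error is the `L_p` norm of the local discrepancy, the error of the formula
without nodes is `(p+1)^(-d/p)`. -/
theorem result (p q : ℝ) (hpq : p.HolderConjugate q) :
    (∀ (d N : ℕ) (A : Quad d N),
      wce q A = eLpNorm (disc A) (ENNReal.ofReal p) (cube d)) ∧
    (∀ (d : ℕ) (A : Quad d 0), wce q A = ENNReal.ofReal (e0 p d)) ∧
    (∃ C : ℝ, 1 < C ∧ ∀ (d : ℕ) (ε : ℝ), 0 < ε → ε ≤ 1 / 32 →
      ENNReal.ofReal (C ^ d / 2) ≤ (NN p q ε d : ℝ≥0∞)) ∧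
    ∃ C : ℝ, 1 < C ∧ ∀ᶠ d : ℕ in atTop, ∀ ε : ℝ, 0 < ε → ε ≤ 1 / 32 →
      ENNReal.ofReal (C ^ d) ≤ (NN p q ε d : ℝ≥0∞) := by
  obtain ⟨C, hC, h⟩ := OwnM.nodes hpq
  have key : ∀ (d : ℕ) (ε : ℝ), 0 < ε → ε ≤ 1 / 32 →
      ENNReal.ofReal (C ^ d / 2) ≤ (NN p q ε d : ℝ≥0∞) := by
    intro d ε hε hε'
    by_cases hne : {k : ℕ∞ | ∃ (N : ℕ) (A : Quad d N), k = N ∧
        wce q A ≤ ENNReal.ofReal (ε * e0 p d)}.Nonempty
    · obtain ⟨N, A, hk, hA⟩ := csInf_mem hne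
      have h1 : NN p q ε d = N := hk
      rw [h1]
      have h2 := h d ε hε hε' N A hA
      calc ENNReal.ofReal (C ^ d / 2) ≤ ENNReal.ofReal (N : ℝ) :=
            ENNReal.ofReal_le_ofReal (by linarith)
        _ = ((N : ℕ∞) : ℝ≥0∞) := by rw [ENNReal.ofReal_natCast]; rfl
    · have h1 : NN p q ε d = ⊤ := by
        unfold NN
        rw [Set.not_nonempty_iff_eq_empty.1 hne, sInf_empty]
      rw [h1]
      exact le_top
  refine ⟨fun d N A => OwnM.wce_eq A hpq, fun d A => OwnM.wce_zero hpq A, ⟨C, hC, key⟩,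
    Real.sqrt C, by rw [Real.lt_sqrt (by norm_num)]; simpa using hC, ?_⟩
  have hs : 1 < Real.sqrt C := by
    rw [Real.lt_sqrt (by norm_num)]
    simpa using hC
  filter_upwards [(tendsto_pow_atTop_atTop_of_one_lt hs).eventually_ge_atTop 2] with d hd ε hε hε'
  refine le_trans (ENNReal.ofReal_le_ofReal ?_) (key d ε hε hε')
  have h3 : C ^ d = Real.sqrt C ^ d * Real.sqrt C ^ d := by
    rw [← mul_pow, Real.mul_self_sqrt (by linarith)]
  have h4 : 0 < Real.sqrt C ^ d := by positivity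
  rw [h3]
  nlinarith

end Pool.Agent.Results.MP_e46b3e_an.Curse
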